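import Mathlib
import Pool.Agent.Run7.h911.NT6

/-!
# The Sato-Tate conjecture for products of `m` elliptic curves: the trace and the Sato-Tate law inside one prime

Let `K` be a totally real field and `A = E_1 × ... × E_m` a product of elliptic curves over `K` without complex
multiplication, no two of which are isogenous over an algebraic closure. Then `ST(A) = SU(2)^m`, and the class of a
prime `v` of good reduction is given by `m` angles `θ_i(v) ∈ [0, π]`; the normalized trace of `A` at `v` is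
`S(v) = ∑ 2 cos θ_i(v)`. The conjecture predicts equidistribution for the product of `m` Sato-Tate measures, which is
known for `m ≤ 2` only. We prove, with natural densities and for every `m ≥ 1`:

* the averages of `S`, `S²`, `S³`, `S⁴` have the predicted limits `0`, `m`, `0`, `3 m² - m`;
* the trace is positive for a lower density of at least `3/20` of the primes, and negative for at least as many,
  whatever `m` is; more generally `± S(v) > δ √m` has a positive lower density, with an explicit bound, for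
  `δ ≤ 3/8`;
* `|S(v)| ≥ t √m` has an upper density of at most `min (1/t²) ((3 - 1/m)/t⁴)`;
* *the Sato-Tate law inside one prime:* outside a set of primes of upper density at most `μ (1 - μ) / (η² m)`, the
  proportion of the curves with `θ_i(v)` in a given interval of Sato-Tate measure `μ` is within `η` of `μ`; and
  outside a set of primes of upper density at most `4 / (m η³)` the empirical distribution function of the `m`
  angles `θ_1(v), ..., θ_m(v)` is at all `t` within `η` of the Sato-Tate distribution function (`0 < η ≤ 1`).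

So for large `m` a random prime sees the Sato-Tate distribution across the curves: the pairs of
curves suffice for that (a law of large numbers), while the statements on the signs use the `L`-functions of
`E_i ⊗ E_j ⊗ E_k ⊗ E_l`.

The structure `Many` (`Pool/Agent/Run7/h911/NT5.lean`) lists what is used of the `L`-functions; it is known.
-/

set_option autoImplicit false

namespace Pool.Agent.Results.MP_c481b3_nt.TracesOfManyCurves

open NumberField IsDedekindDomain Filter Topology
open Run7.h911.NT (Many)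

variable {K : Type} [Field K] [NumberField K] {m : ℕ}

/-- the proportion of the primes with `P` among the primes of norm at most `N` -/
noncomputable def density (P : HeightOneSpectrum (𝓞 K) → Prop) (N : ℕ) : ℝ :=
  (Nat.card {v : HeightOneSpectrum (𝓞 K) // Ideal.absNorm v.asIdeal ≤ N ∧ P v} : ℝ) /
    Nat.card {v : HeightOneSpectrum (𝓞 K) // Ideal.absNorm v.asIdeal ≤ N}

/-- the average of `f` over the primes of norm at most `N` -/
noncomputable def mean (f : HeightOneSpectrum (𝓞 K) → ℝ) (N : ℕ) : ℝ :=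
  (∑ᶠ v ∈ {v : HeightOneSpectrum (𝓞 K) | Ideal.absNorm v.asIdeal ≤ N}, f v) /
    Nat.card {v : HeightOneSpectrum (𝓞 K) // Ideal.absNorm v.asIdeal ≤ N}

/-- the normalized trace -/
noncomputable def S (θ : Fin m → HeightOneSpectrum (𝓞 K) → ℝ) (v : HeightOneSpectrum (𝓞 K)) : ℝ :=
  ∑ i, 2 * Real.cos (θ i v)

/-- the Sato-Tate measure of the interval `[a, b]` of angles -/
noncomputable def st (a b : ℝ) : ℝ := 2 / Real.pi * ∫ t in a..b, Real.sin t ^ 2

/-- the proportion of the `m` curves whose angle at `v` is in `[a, b]` -/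
noncomputable def part (θ : Fin m → HeightOneSpectrum (𝓞 K) → ℝ) (a b : ℝ)
    (v : HeightOneSpectrum (𝓞 K)) : ℝ :=
  (Nat.card {i : Fin m // a ≤ θ i v ∧ θ i v ≤ b} : ℝ) / m

theorem density_eq (P : HeightOneSpectrum (𝓞 K) → Prop) (N : ℕ) :
    density P N = Run7.h911.NT.avg (fun v => Run7.h911.NT.b2r (P v)) N := by
  classical
  unfold density Run7.h911.NT.avg
  have h1 : Nat.card {v : HeightOneSpectrum (𝓞 K) // Ideal.absNorm v.asIdeal ≤ N} =
      (Pool.Agent.W540.BE.upto K N).card := Nat.subtype_card _ fun v => Pool.Agent.W540.BE.mem_upto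
  have h2 : Nat.card {v : HeightOneSpectrum (𝓞 K) // Ideal.absNorm v.asIdeal ≤ N ∧ P v} =
      ((Pool.Agent.W540.BE.upto K N).filter P).card := Nat.subtype_card _ fun v => by
    rw [Finset.mem_filter]
    exact and_congr_left fun _ => Pool.Agent.W540.BE.mem_upto
  rw [h1, h2, Finset.card_filter]
  congr 1
  push_cast
  refine Finset.sum_congr rfl fun v _ => ?_
  unfold Run7.h911.NT.b2r
  congr

theorem mean_eq (f : HeightOneSpectrum (𝓞 K) → ℝ) (N : ℕ) : mean f N = Run7.h911.NT.avg f N := by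
  classical
  unfold mean Run7.h911.NT.avg
  have h1 : Nat.card {v : HeightOneSpectrum (𝓞 K) // Ideal.absNorm v.asIdeal ≤ N} =
      (Pool.Agent.W540.BE.upto K N).card := Nat.subtype_card _ fun v => Pool.Agent.W540.BE.mem_upto
  have h2 : {v : HeightOneSpectrum (𝓞 K) | Ideal.absNorm v.asIdeal ≤ N} =
      ((Pool.Agent.W540.BE.upto K N : Finset _) : Set (HeightOneSpectrum (𝓞 K))) := by
    ext v
    rw [Set.mem_ofPred_eq, Finset.mem_coe]
    exact Pool.Agent.W540.BE.mem_upto.symm
  rw [h1, h2, finsum_mem_coe_finset]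

theorem ind_eq (a b t : ℝ) : Run7.h911.ST.ind a b t = Run7.h911.NT.b2r (a ≤ t ∧ t ≤ b) := by
  classical
  unfold Run7.h911.ST.ind Run7.h911.NT.b2r
  by_cases h : a ≤ t ∧ t ≤ b
  · rw [if_pos h, if_pos (Set.mem_Icc.2 h)]
  · rw [if_neg h, if_neg (fun h' => h (Set.mem_Icc.1 h'))]

theorem part_eq (θ : Fin m → HeightOneSpectrum (𝓞 K) → ℝ) (a b : ℝ) (v : HeightOneSpectrum (𝓞 K)) :
    part θ a b v = (∑ i, Run7.h911.ST.ind a b (θ i v)) / m := by
  classical
  unfold part
  congr 1
  rw [Nat.card_eq_fintype_card, Fintype.card_subtype, Finset.card_filter]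
  push_cast
  refine Finset.sum_congr rfl fun i _ => ?_
  rw [ind_eq]
  unfold Run7.h911.NT.b2r
  congr

theorem part_iff (θ : Fin m → HeightOneSpectrum (𝓞 K) → ℝ) (hm : 0 < m) (a b η : ℝ)
    (v : HeightOneSpectrum (𝓞 K)) : η ≤ |part θ a b v - st a b| ↔
      η * m ≤ |∑ i, Run7.h911.ST.ind a b (θ i v) - m * Run7.h911.ST.mu a b| := by
  have hm0 : (0 : ℝ) < m := by exact_mod_cast hm
  have e : ∑ i, Run7.h911.ST.ind a b (θ i v) - m * Run7.h911.ST.mu a b =
      (part θ a b v - st a b) * m := by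
    rw [part_eq]
    have : st a b = Run7.h911.ST.mu a b := rfl
    rw [this]
    field_simp
  rw [e, abs_mul, abs_of_pos hm0]
  exact (mul_le_mul_iff_left₀ hm0).symm

/-- **Products of `m` elliptic curves.** `θ i v` is the Frobenius angle of the `i`-th curve at the prime `v`. -/
theorem result {θ : Fin m → HeightOneSpectrum (𝓞 K) → ℝ} (h : Many θ) (hm : 0 < m) :
    -- the moments of the trace
    (Tendsto (mean (S θ)) atTop (𝓝 0) ∧
      Tendsto (mean fun v => S θ v ^ 2) atTop (𝓝 m) ∧
      Tendsto (mean fun v => S θ v ^ 3) atTop (𝓝 0) ∧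
      Tendsto (mean fun v => S θ v ^ 4) atTop (𝓝 (3 * (m : ℝ) ^ 2 - m))) ∧
    -- the signs of the trace
    (∀ s : ℝ, (s = 1 ∨ s = -1) →
      (∀ᶠ N : ℕ in atTop, 3 / 20 ≤ density (fun v => 0 < s * S θ v) N) ∧
      ∀ δ : ℝ, 0 ≤ δ → δ ≤ 1 → ∀ ε : ℝ, 0 < ε → ∀ᶠ N : ℕ in atTop,
        (2.88 - 5.488 * δ - 5.88 * δ ^ 2 + δ ^ 4) / 18.63 - ε ≤
          density (fun v => δ * Real.sqrt m < s * S θ v) N) ∧
    -- large values of the trace
    (∀ t : ℝ, 0 < t → ∀ ε : ℝ, 0 < ε → ∀ᶠ N : ℕ in atTop,
      density (fun v => t * Real.sqrt m ≤ |S θ v|) N ≤ min (1 / t ^ 2) ((3 - 1 / m) / t ^ 4) + ε) ∧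
    -- the Sato-Tate law inside one prime, for an interval
    (∀ a b η : ℝ, 0 ≤ a → a ≤ b → b ≤ Real.pi → 0 < η → ∀ ε : ℝ, 0 < ε → ∀ᶠ N : ℕ in atTop,
      density (fun v => η ≤ |part θ a b v - st a b|) N ≤
        st a b * (1 - st a b) / (η ^ 2 * m) + ε) ∧
    -- the Sato-Tate law inside one prime, uniformly
    (∀ η : ℝ, 0 < η → η ≤ 1 → ∀ ε : ℝ, 0 < ε → ∀ᶠ N : ℕ in atTop,
      density (fun v => ∃ t : ℝ, 0 ≤ t ∧ t ≤ Real.pi ∧ η ≤ |part θ 0 t v - st 0 t|) N ≤
        4 / (m * η ^ 3) + ε) := by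
  refine ⟨⟨?_, ?_, ?_, ?_⟩, fun s hs => ⟨?_, fun δ hδ0 hδ1 ε hε => ?_⟩, fun t ht ε hε => ?_,
    fun a b η h0 hab hb hη ε hε => ?_, fun η hη hη1 ε hε => ?_⟩
  · exact (Run7.h911.NT.mom1 h).congr fun N => (mean_eq _ N).symm
  · exact (Run7.h911.NT.mom2 h).congr fun N => (mean_eq _ N).symm
  · exact (Run7.h911.NT.mom3 h).congr fun N => (mean_eq _ N).symm
  · exact (Run7.h911.NT.mom4 h).congr fun N => (mean_eq _ N).symm
  · have h1 := Run7.h911.NT.sign_lower h hm hs (δ := 0) (c := 3 / 20) le_rfl (by norm_num) (by norm_num)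
    filter_upwards [h1] with N hN
    rw [density_eq]
    simp only [zero_mul] at hN
    exact hN
  · have h1 := Run7.h911.NT.sign_lower h hm hs (δ := δ)
      (c := (2.88 - 5.488 * δ - 5.88 * δ ^ 2 + δ ^ 4) / 18.63 - ε) hδ0 hδ1 (by
        have : (2.88 - 5.488 * δ - 5.88 * δ ^ 2 + δ ^ 4) / 18.63 =
          (2.88 - (5.488 * δ + 5.88 * δ ^ 2 - δ ^ 4)) / 18.63 := by ring
        rw [this]
        linarith)
    filter_upwards [h1] with N hN
    rw [density_eq]
    exact hN
  · have h1 := Run7.h911.NT.large_upper h hm ht (c := min (1 / t ^ 2) ((3 - 1 / m) / t ^ 4) + ε) (by linarith)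
    filter_upwards [h1] with N hN
    rw [density_eq]
    exact hN
  · have h1 := Run7.h911.NT.dev_upper h hm h0 hab hb hη (c := st a b * (1 - st a b) / (η ^ 2 * m) + ε) (by
      have : st a b = Run7.h911.ST.mu a b := rfl
      rw [this]
      have e : Run7.h911.ST.mu a b * (1 - Run7.h911.ST.mu a b) =
        Run7.h911.ST.mu a b - Run7.h911.ST.mu a b ^ 2 := by ring
      rw [e]
      linarith)
    filter_upwards [h1] with N hN
    rw [density_eq]
    simp only [part_iff θ hm]
    exact hN
  · have h1 := Run7.h911.NT.kolmogorov h hm hη hη1 (c := 4 / (m * η ^ 3) + ε) (by linarith)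
    filter_upwards [h1] with N hN
    rw [density_eq]
    have e : ∀ v, (∃ t : ℝ, 0 ≤ t ∧ t ≤ Real.pi ∧ η ≤ |part θ 0 t v - st 0 t|) ↔
        ∃ t ∈ Set.Icc 0 Real.pi,
          η * m ≤ |∑ i, Run7.h911.ST.ind 0 t (θ i v) - m * Run7.h911.ST.mu 0 t| := by
      intro v
      constructor
      · rintro ⟨t, h0, h1, h2⟩
        exact ⟨t, ⟨h0, h1⟩, (part_iff θ hm 0 t η v).1 h2⟩
      · rintro ⟨t, ht, h2⟩
        exact ⟨t, ht.1, ht.2, (part_iff θ hm 0 t η v).2 h2⟩
    simp only [e]
    exact hN

end Pool.Agent.Results.MP_c481b3_nt.TracesOfManyCurves
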